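import Mathlib

set_option autoImplicit false

namespace Pool.Agent.Results.MP_b69c94_gt.NonLindelofSquare

open Set Filter Cardinal Topology

/-- A space is cosmic if it has a countable network. -/
def Cosmic (Y : Type) [TopologicalSpace Y] : Prop :=
  ∃ N : Set (Set Y), N.Countable ∧ ∀ U : Set Y, IsOpen U → ∃ A ⊆ N, U = ⋃₀ A

/-- `X` is omega-stable: every Tychonoff continuous image of `X` that condenses onto a
second countable Tychonoff space is cosmic. -/
def OmegaStable (X : Type) [TopologicalSpace X] : Prop :=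
  ∀ (Y : Type) [TopologicalSpace Y] [T35Space Y] (f : X → Y),
    Continuous f → Function.Surjective f →
    ∀ (M : Type) [TopologicalSpace M] [T35Space M] [SecondCountableTopology M] (g : Y → M),
      Continuous g → Function.Bijective g → Cosmic Y

def II : Type := (Order.succ ℵ₀ : Cardinal.{0}).ord.ToType

noncomputable instance : LinearOrder II :=
  inferInstanceAs (LinearOrder (Order.succ ℵ₀ : Cardinal.{0}).ord.ToType)
instance : WellFoundedLT II :=
  inferInstanceAs (WellFoundedLT (Order.succ ℵ₀ : Cardinal.{0}).ord.ToType)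

lemma bdd_gen (c : Cardinal.{0}) (hc : c.IsRegular) (S : Set c.ord.ToType) (h : #S < c) :
    ∃ b, ∀ s ∈ S, s < b := by
  rw [← not_isCofinal_iff]
  intro hS
  have h1 := Order.cof_le hS
  rw [Ordinal.cof_toType, hc.cof_ord] at h1
  exact absurd h (not_lt.mpr h1)

lemma iio_gen (c : Cardinal.{0}) (i : c.ord.ToType) : #(Iio i) < c := by
  simpa using Cardinal.mk_Iio_lt i

lemma card_II : #II = Order.succ ℵ₀ := by
  unfold II; simp

lemma bddI (C : Set II) (hC : C.Countable) : ∃ i, ∀ c ∈ C, c < i := by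
  apply bdd_gen _ (Cardinal.isRegular_succ le_rfl) C
  rw [← Cardinal.le_aleph0_iff_set_countable] at hC
  exact Order.lt_succ_iff.mpr hC

lemma cIio (i : II) : (Iio i).Countable := by
  rw [← Cardinal.le_aleph0_iff_set_countable]
  exact Order.lt_succ_iff.mp (iio_gen _ i)

lemma cIic (i : II) : (Iic i).Countable := by
  rw [← Iio_insert]; exact (cIio i).insert i

lemma sel0 (S : (𝔠 : Cardinal.{0}).ord.ToType → Set ℝ) (hS : ∀ j, 𝔠 ≤ #(S j)) :
    ∃ s : (𝔠 : Cardinal.{0}).ord.ToType → ℝ, Function.Injective s ∧ ∀ j, s j ∈ S j := by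
  classical
  have h1 : ∀ (j : (𝔠 : Cardinal.{0}).ord.ToType) (r : Iio j → ℝ), ∃ x ∈ S j, x ∉ range r := by
    intro j r
    by_contra hc
    push Not at hc
    have h2 : #(S j) ≤ #(range r) := Cardinal.mk_le_mk_of_subset hc
    have h3 : #(range r) ≤ #(Iio j) := Cardinal.mk_range_le
    exact absurd ((hS j).trans (h2.trans h3)) (not_le.mpr (iio_gen _ j))
  choose c hc1 hc2 using h1
  let F : (i : (𝔠 : Cardinal.{0}).ord.ToType) → ((j : _) → j < i → ℝ) → ℝ :=
    fun i r => c i (fun j => r j.1 j.2)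
  let s : (𝔠 : Cardinal.{0}).ord.ToType → ℝ := WellFoundedLT.fix F
  have e : ∀ i, s i = c i (fun j => s j.1) := fun i => WellFoundedLT.fix_eq F i
  have hne : ∀ i j, j < i → s j ≠ s i := by
    intro i j hj h
    apply hc2 i (fun j => s j.1)
    rw [← e i]
    exact ⟨⟨j, hj⟩, h⟩
  refine ⟨s, ?_, fun j => by rw [e j]; exact hc1 _ _⟩
  intro i j h
  rcases lt_trichotomy i j with h1 | h1 | h1
  · exact absurd h (hne j i h1)
  · exact h1
  · exact absurd h.symm (hne i j h1)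

lemma sel {J : Type} [Nonempty J] (hJ : #J ≤ 𝔠) (S : J → Set ℝ) (hS : ∀ j, 𝔠 ≤ #(S j)) :
    ∃ s : J → ℝ, Function.Injective s ∧ ∀ j, s j ∈ S j := by
  have : #J ≤ #((𝔠 : Cardinal.{0}).ord.ToType) := by simpa using hJ
  obtain ⟨e⟩ := this
  obtain ⟨s, hs, hs2⟩ := sel0 (fun c => S (Function.invFun e c)) (fun _ => hS _)
  refine ⟨s ∘ e, hs.comp e.injective, fun j => ?_⟩
  have := hs2 (e j)
  rwa [Function.leftInverse_invFun e.injective j] at this

lemma card_closed : #{C : Set ℝ // IsClosed C ∧ ¬ C.Countable} ≤ 𝔠 := by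
  let φ : {C : Set ℝ // IsClosed C ∧ ¬ C.Countable} → Set (TopologicalSpace.countableBasis ℝ) :=
    fun C => {U | (U : Set ℝ) ⊆ C.1ᶜ}
  have hφ : Function.Injective φ := by
    have key : ∀ C D, φ C = φ D → C.1ᶜ ⊆ D.1ᶜ := by
      intro C D h x hx
      obtain ⟨U, hU, hxU, hUC⟩ :=
        (TopologicalSpace.isBasis_countableBasis ℝ).exists_subset_of_mem_open hx
          C.2.1.isOpen_compl
      have : (⟨U, hU⟩ : TopologicalSpace.countableBasis ℝ) ∈ φ C := hUC
      rw [h] at this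
      exact this hxU
    intro C D h
    apply Subtype.ext
    exact compl_injective (Subset.antisymm (key C D h) (key D C h.symm))
  have h1 := Cardinal.mk_le_of_injective hφ
  rw [Cardinal.mk_set] at h1
  refine h1.trans ?_
  rw [← Cardinal.two_power_aleph0]
  apply Cardinal.power_le_power_left two_ne_zero
  exact Cardinal.le_aleph0_iff_set_countable.mpr (TopologicalSpace.countable_countableBasis ℝ)

lemma exists_b : ∃ b : II → ℝ, Function.Injective b ∧
    ∀ C : Set ℝ, IsClosed C → C ⊆ range b → C.Countable := by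
  obtain ⟨z, _⟩ := bddI ∅ countable_empty
  haveI : Nonempty ({C : Set ℝ // IsClosed C ∧ ¬ C.Countable} ⊕ II) := ⟨Sum.inr z⟩
  have hJ : #({C : Set ℝ // IsClosed C ∧ ¬ C.Countable} ⊕ II) ≤ 𝔠 := by
    rw [Cardinal.mk_sum, Cardinal.lift_id, Cardinal.lift_id]
    apply Cardinal.add_le_of_le Cardinal.aleph0_le_continuum card_closed
    rw [card_II]; exact Order.succ_le_of_lt Cardinal.aleph0_lt_continuum
  obtain ⟨s, hs, hs2⟩ := sel hJ (Sum.elim (fun C => C.1) (fun _ => univ)) (by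
    rintro (C | i)
    · obtain ⟨f, hf, -, hi⟩ := C.2.1.exists_nat_bool_injection_of_not_countable C.2.2
      have h1 : #(range f) ≤ #C.1 := Cardinal.mk_le_mk_of_subset hf
      rw [Cardinal.mk_range_eq f hi] at h1
      simpa using h1
    · simp [Cardinal.mk_real])
  refine ⟨fun i => s (Sum.inr i), fun i j h => Sum.inr_injective (hs h), ?_⟩
  intro C hC hsub
  by_contra hc
  obtain ⟨i, hi⟩ := hsub (hs2 (Sum.inl ⟨C, hC, hc⟩))
  exact absurd (hs hi) Sum.inr_ne_inl

open Classical in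
noncomputable def e (a : WithTop II) : II → Bool := fun c => decide ((c : WithTop II) < a)

lemma e_true (a : WithTop II) (c : II) : e a c = true ↔ (c : WithTop II) < a := by
  simp [e]

lemma e_false (a : WithTop II) (c : II) : e a c = false ↔ a ≤ (c : WithTop II) := by
  simp [e]

def XS (b : II → ℝ) (z : II) : Set (ℝ × (II → Bool)) :=
  {p | ∃ a : WithTop II, p.2 = e a ∧ (∀ i, p.1 = b i → a ≤ (i : WithTop II)) ∧
    (p.1 ∉ range b → (z : WithTop II) < a)}

lemma top_mem (b : II → ℝ) (z : II) (t : ℝ) (ht : t ∉ range b) : (t, e ⊤) ∈ XS b z :=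
  ⟨⊤, rfl, fun i h => absurd ⟨i, h.symm⟩ ht, fun _ => WithTop.coe_lt_top z⟩

lemma mono (b : II → ℝ) (z : II) (x : XS b z) (c d : II) (h : c ≤ d) (hd : x.1.2 d = true) :
    x.1.2 c = true := by
  obtain ⟨a, ha, -, -⟩ := x.2
  rw [ha, e_true] at hd ⊢
  exact lt_of_le_of_lt (WithTop.coe_le_coe.mpr h) hd

lemma nb (b : II → ℝ) (z : II) (t : ℝ) (ht : t ∉ range b) (N : Set (XS b z))
    (hN : N ∈ 𝓝 (⟨(t, e ⊤), top_mem b z t ht⟩ : XS b z)) :
    ∃ U : Set ℝ, IsOpen U ∧ t ∈ U ∧ ∃ β : II,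
      ∀ x : XS b z, x.1.1 ∈ U → x.1.2 β = true → x ∈ N := by
  rw [mem_nhds_subtype] at hN
  obtain ⟨N', hN', hsub⟩ := hN
  rw [mem_nhds_prod_iff] at hN'
  obtain ⟨U, hU, V, hV, hUV⟩ := hN'
  rw [nhds_pi, Filter.mem_pi] at hV
  obtain ⟨I, hI, s, hs, hIs⟩ := hV
  obtain ⟨β, hβ⟩ := bddI I hI.countable
  refine ⟨interior U, isOpen_interior, mem_interior_iff_mem_nhds.mpr hU, β, ?_⟩
  intro x hx hxβ
  apply hsub
  apply hUV
  refine ⟨interior_subset hx, hIs ?_⟩
  intro i hi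
  rw [mono b z x i β (hβ i hi).le hxβ]
  have := mem_of_mem_nhds (hs i)
  rwa [(e_true ⊤ i).mpr (WithTop.coe_lt_top i)] at this

lemma key (b : II → ℝ) (z : II) (hb : Function.Injective b)
    (hC : ∀ C : Set ℝ, IsClosed C → C ⊆ range b → C.Countable)
    (N : (t : ℝ) → t ∉ range b → Set (XS b z))
    (hN : ∀ t ht, N t ht ∈ 𝓝 (⟨(t, e ⊤), top_mem b z t ht⟩ : XS b z)) :
    ∃ T : Set ((range b)ᶜ : Set ℝ), T.Countable ∧ ∃ γ : II, ∀ x : XS b z, x.1.2 γ = true →
      ∃ t ∈ T, ∀ y : XS b z, y.1.1 = x.1.1 → y.1.2 γ = true → y ∈ N t.1 t.2 := by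
  choose U hU htU β hβ using fun t : ((range b)ᶜ : Set ℝ) => nb b z t.1 t.2 _ (hN t.1 t.2)
  obtain ⟨T, hT, hTU⟩ := TopologicalSpace.isOpen_iUnion_countable U hU
  have h1 : (⋃ t, U t)ᶜ.Countable := by
    apply hC _ (isOpen_iUnion hU).isClosed_compl
    intro t ht
    by_contra h
    exact ht (mem_iUnion.mpr ⟨⟨t, h⟩, htU _⟩)
  obtain ⟨γ, hγ⟩ := bddI (β '' T ∪ b ⁻¹' (⋃ t, U t)ᶜ)
    ((hT.image β).union (h1.preimage_of_injOn hb.injOn))
  refine ⟨T, hT, γ, fun x hx => ?_⟩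
  have hxU : x.1.1 ∈ ⋃ t, U t := by
    by_contra h
    have hr : x.1.1 ∈ range b := by
      by_contra h'
      exact h (mem_iUnion.mpr ⟨⟨_, h'⟩, htU _⟩)
    obtain ⟨i, hi⟩ := hr
    have hiγ := hγ i (Or.inr (by simpa [hi] using h))
    obtain ⟨a, ha, h2, -⟩ := x.2
    rw [ha, e_true] at hx
    have := lt_of_lt_of_le hx (h2 i hi.symm)
    exact absurd (WithTop.coe_lt_coe.mp this) (not_lt.mpr hiγ.le)
  rw [← hTU] at hxU
  simp only [mem_iUnion] at hxU
  obtain ⟨t, ht, hxt⟩ := hxU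
  refine ⟨t, ht, fun y hy hyγ => hβ t y (hy ▸ hxt) ?_⟩
  exact mono b z y _ γ (hγ _ (Or.inl ⟨t, ht, rfl⟩)).le hyγ

noncomputable def φ (b : II → ℝ) (z c : II) : {t : ℝ // (t, e c) ∈ XS b z} → XS b z :=
  fun t => ⟨(t.1, e c), t.2⟩

lemma φ_cont (b : II → ℝ) (z c : II) : Continuous (φ b z c) :=
  Continuous.subtype_mk (continuous_subtype_val.prodMk continuous_const) _

lemma cover (b : II → ℝ) (z δ : II) (x : XS b z) (hx : x.1.2 δ = false) :
    ∃ c ≤ δ, x ∈ range (φ b z c) := by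
  obtain ⟨⟨t, χ⟩, hx2⟩ := x
  obtain ⟨a, ha, h1, h2⟩ := id hx2
  simp only at ha hx
  subst ha
  rw [e_false] at hx
  obtain ⟨c, rfl⟩ := WithTop.ne_top_iff_exists.mp (ne_top_of_le_ne_top WithTop.coe_ne_top hx)
  exact ⟨c, WithTop.coe_le_coe.mp hx, ⟨t, hx2⟩, rfl⟩

lemma lind (b : II → ℝ) (z : II) (hb : Function.Injective b)
    (hC : ∀ C : Set ℝ, IsClosed C → C ⊆ range b → C.Countable) : LindelofSpace (XS b z) := by
  constructor
  apply isLindelof_of_countable_subcover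
  intro ι U hU hcov
  have h1 : ∀ x : XS b z, ∃ i, x ∈ U i := fun x => mem_iUnion.mp (hcov (mem_univ x))
  choose i hi using h1
  obtain ⟨T, hT, γ, hγ⟩ := key b z hb hC (fun t ht => U (i ⟨(t, e ⊤), top_mem b z t ht⟩))
    (fun t ht => (hU _).mem_nhds (hi _))
  have hL : IsLindelof (⋃ c ∈ Iic γ, range (φ b z c)) :=
    (cIic γ).isLindelof_biUnion (fun c _ => isLindelof_range (φ_cont b z c))
  obtain ⟨r, hr, hr2⟩ := hL.elim_countable_subcover U hU ((subset_univ _).trans hcov)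
  refine ⟨r ∪ (fun t : ((range b)ᶜ : Set ℝ) => i ⟨(t.1, e ⊤), top_mem b z t.1 t.2⟩) '' T,
    hr.union (hT.image _), fun x _ => ?_⟩
  cases hx : x.1.2 γ
  · obtain ⟨c, hc, hxc⟩ := cover b z γ x hx
    have := hr2 (mem_biUnion (show c ∈ Iic γ from hc) hxc)
    simp only [mem_iUnion] at this ⊢
    obtain ⟨j, hj, hxj⟩ := this
    exact ⟨j, Or.inl hj, hxj⟩
  · obtain ⟨t, ht, h⟩ := hγ x hx
    simp only [mem_iUnion]
    exact ⟨_, Or.inr ⟨t, ht, rfl⟩, h x rfl hx⟩

lemma stable (b : II → ℝ) (z : II) (hb : Function.Injective b)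
    (hC : ∀ C : Set ℝ, IsClosed C → C ⊆ range b → C.Countable) : OmegaStable (XS b z) := by
  intro Y _ _ f hf hfs M _ _ _ g hg hgb
  letI : MetricSpace M := TopologicalSpace.metrizableSpaceMetric M
  have hh : Continuous (g ∘ f) := hg.comp hf
  have h1 := fun n : ℕ => key b z hb hC
    (fun t ht => (g ∘ f) ⁻¹' Metric.ball ((g ∘ f) ⟨(t, e ⊤), top_mem b z t ht⟩)
      (1 / ((n : ℝ) + 1)))
    (fun t ht => hh.continuousAt.preimage_mem_nhds (Metric.ball_mem_nhds _ Nat.one_div_pos_of_nat))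
  choose T hT γ hγ using h1
  obtain ⟨γ0, hγ0⟩ := bddI (insert z (range γ)) ((countable_range γ).insert z)
  have h2 : ∀ x y : XS b z, y.1.1 = x.1.1 → x.1.2 γ0 = true → y.1.2 γ0 = true → f x = f y := by
    intro x y hxy hx hy
    apply hgb.1
    apply eq_of_forall_dist_le
    intro ε hε
    obtain ⟨n, hn⟩ := exists_nat_one_div_lt (half_pos hε)
    have hle := (hγ0 (γ n) (Or.inr ⟨n, rfl⟩)).le
    obtain ⟨t, -, h⟩ := hγ n x (mono b z x _ _ hle hx)
    have a1 := h x rfl (mono b z x _ _ hle hx)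
    have a2 := h y hxy (mono b z y _ _ hle hy)
    simp only [mem_preimage, Metric.mem_ball, Function.comp] at a1 a2
    have := dist_triangle_right (g (f x)) (g (f y)) (g (f ⟨(t.1, e ⊤), top_mem b z t.1 t.2⟩))
    linarith
  have hne : {c : II | γ0 < c}.Nonempty := by
    obtain ⟨c, hc⟩ := bddI {γ0} (countable_singleton _)
    exact ⟨c, hc _ rfl⟩
  let δ : II := wellFounded_lt.min _ hne
  have hδ1 : γ0 < δ := wellFounded_lt.min_mem _ hne
  have hδ2 : ∀ c, γ0 < c → δ ≤ c := fun c hc => not_lt.mp (wellFounded_lt.not_lt_min _ hc)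
  have h3 : ∀ x : XS b z, ∃ y : XS b z, y.1.2 δ = false ∧ f x = f y := by
    intro x
    cases hx : x.1.2 γ0
    · refine ⟨x, ?_, rfl⟩
      cases hx' : x.1.2 δ
      · rfl
      · rw [mono b z x _ _ hδ1.le hx'] at hx; exact absurd hx (by simp)
    · obtain ⟨a, ha, h4, h5⟩ := x.2
      have hlt : (γ0 : WithTop II) < a := by rwa [ha, e_true] at hx
      have hm : (x.1.1, e δ) ∈ XS b z := by
        refine ⟨δ, rfl, fun i hi => ?_, fun _ => ?_⟩
        · exact WithTop.coe_le_coe.mpr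
            (hδ2 i (WithTop.coe_lt_coe.mp (lt_of_lt_of_le hlt (h4 i hi))))
        · exact WithTop.coe_lt_coe.mpr ((hγ0 z (Or.inl rfl)).trans hδ1)
      refine ⟨⟨_, hm⟩, (e_false _ _).mpr le_rfl, h2 x _ rfl hx ?_⟩
      exact (e_true _ _).mpr (WithTop.coe_lt_coe.mpr hδ1)
  let NN : II × Set ℝ → Set Y := fun p => (f ∘ φ b z p.1) '' (Subtype.val ⁻¹' p.2)
  refine ⟨NN '' (Iic δ ×ˢ TopologicalSpace.countableBasis ℝ),
    ((cIic δ).prod (TopologicalSpace.countable_countableBasis ℝ)).image _, fun U hU => ?_⟩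
  refine ⟨{A ∈ NN '' (Iic δ ×ˢ TopologicalSpace.countableBasis ℝ) | A ⊆ U}, sep_subset _ _, ?_⟩
  apply Subset.antisymm
  · intro y hy
    obtain ⟨x, rfl⟩ := hfs y
    obtain ⟨x', hx', hxx'⟩ := h3 x
    obtain ⟨c, hc, t, rfl⟩ := cover b z δ x' hx'
    have ho : IsOpen ((f ∘ φ b z c) ⁻¹' U) := hU.preimage (hf.comp (φ_cont b z c))
    obtain ⟨O, hO, hOe⟩ := isOpen_induced_iff.mp ho
    have htO : t.1 ∈ O := by
      have : t ∈ (f ∘ φ b z c) ⁻¹' U := by
        simp only [mem_preimage, Function.comp]; rwa [← hxx']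
      rwa [← hOe] at this
    obtain ⟨V, hV, htV, hVO⟩ :=
      (TopologicalSpace.isBasis_countableBasis ℝ).exists_subset_of_mem_open htO hO
    refine ⟨NN (c, V), ⟨⟨(c, V), ⟨hc, hV⟩, rfl⟩, ?_⟩, t, htV, hxx'.symm⟩
    rintro _ ⟨s, hs, rfl⟩
    have : s ∈ (f ∘ φ b z c) ⁻¹' U := by rw [← hOe]; exact hVO hs
    exact this
  · rintro y ⟨A, hA, hy⟩
    exact hA.2 hy

lemma notl (b : II → ℝ) (z : II) (hb : Function.Injective b) :
    ¬ LindelofSpace (XS b z × XS b z) := by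
  intro hL
  let D : Set (XS b z × XS b z) := {p | p.1.1.1 = p.2.1.1} ∩ {p | p.2.1.2 z = false}
  have hD : IsClosed D := by
    apply IsClosed.inter
    · exact isClosed_eq (by fun_prop) (by fun_prop)
    · exact isClosed_eq (by fun_prop) continuous_const
  let O : II → Set (XS b z × XS b z) := fun c => {p | p.1.1.2 c = false}
  have hO : ∀ c, IsOpen (O c) := fun c =>
    (isOpen_discrete ({false} : Set Bool)).preimage
      (f := fun p : XS b z × XS b z => p.1.1.2 c) (by fun_prop)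
  obtain ⟨r, hr, hr2⟩ := hD.isLindelof.elim_countable_subcover O hO (by
    rintro ⟨x, y⟩ ⟨h1, h2⟩
    simp only [mem_ofPred_eq] at h1 h2
    obtain ⟨a, ha, -, h3⟩ := y.2
    have hy : y.1.1 ∈ range b := by
      by_contra h
      rw [ha, e_false] at h2
      exact absurd (h3 h) (not_lt.mpr h2)
    obtain ⟨i, hi⟩ := hy
    obtain ⟨a', ha', h4, -⟩ := x.2
    refine mem_iUnion.mpr ⟨i, ?_⟩
    show x.1.2 i = false
    rw [ha', e_false]
    exact h4 i (h1.trans hi.symm))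
  obtain ⟨i, hi⟩ := bddI r hr
  have hx : (b i, e i) ∈ XS b z :=
    ⟨i, rfl, fun j hj => by rw [hb hj], fun h => absurd ⟨i, rfl⟩ h⟩
  have hy : (b i, e (min z i : II)) ∈ XS b z :=
    ⟨_, rfl, fun j hj => by rw [← hb hj]; exact WithTop.coe_le_coe.mpr (min_le_right _ _),
      fun h => absurd ⟨i, rfl⟩ h⟩
  have hm : ((⟨_, hx⟩, ⟨_, hy⟩) : XS b z × XS b z) ∈ D :=
    ⟨rfl, (e_false _ _).mpr (WithTop.coe_le_coe.mpr (min_le_left _ _))⟩
  have := hr2 hm
  simp only [mem_iUnion] at this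
  obtain ⟨c, hc, h⟩ := this
  have h' : e i c = false := h
  rw [e_false] at h'
  exact absurd (hi c hc) (not_lt.mpr (WithTop.coe_le_coe.mp h'))

theorem result : ∃ (X : Type) (_ : TopologicalSpace X), T35Space X ∧ LindelofSpace X ∧
    OmegaStable X ∧ ¬ LindelofSpace (X × X) ∧ ¬ LindelofSpace (Fin 2 → X) := by
  obtain ⟨b, hb, hC⟩ := exists_b
  obtain ⟨z, _⟩ := bddI ∅ countable_empty
  refine ⟨XS b z, inferInstance, inferInstance, lind b z hb hC, stable b z hb hC,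
    notl b z hb, fun h => notl b z hb ?_⟩
  exact LindelofSpace.of_continuous_surjective (Homeomorph.finTwoArrow (X := XS b z)).continuous
    (Homeomorph.finTwoArrow (X := XS b z)).surjective

end Pool.Agent.Results.MP_b69c94_gt.NonLindelofSquare
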